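import Pool.Agent.Lib.MP_8c2010_pr.NU.Spec
import Pool.Agent.Lib.MP_8c2010_pr.NU.All

set_option autoImplicit false

/-! # Cutoff for all nearly uniform random transposition walks

Every sequence of biased transposition walks with weights `c/n² ≤ p i j ≤ C/n²` on ordered pairs
(nothing else is assumed) exhibits cutoff; the window is at most of order `n log log n`, while the
mixing times are of order `n log n`. The proof (`Pool.Agent.Lib.MP_8c2010_pr.NU.*`): the entropy
inequality `Ent f ≤ (9/4) ∑ k, E Ent_j f(σ (k j))` on permutations (chain rule and induction)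
contracts the relative entropy by the factor `1 - 4c/(9n)` per step; a local Poincare inequality
(the conjugated weights are comparable to the weights themselves) bounds the variance of the
logarithm of the smoothed density by `K t log² n` times the entropy drop, so that, unless the total
variation distance is already above `1 - ε`, the entropy falls to `log³ n` within `n` steps. -/

namespace Pool.Agent.Results.MP_8c2010_pr.NearlyUniformCutoff

open Equiv Filter Topology

/-- One step of the walk, transposition composed on the right: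
probability of moving from `ρ` to `σ` when the pair `(i, j)` has probability `w i j`. -/
noncomputable def stepRight {n : ℕ} (w : Fin n → Fin n → ℝ) (ρ σ : Perm (Fin n)) : ℝ :=
  ∑ i, ∑ j, if ρ * swap i j = σ then w i j else 0

/-- One step of the walk, transposition composed on the left. -/
noncomputable def stepLeft {n : ℕ} (w : Fin n → Fin n → ℝ) (ρ σ : Perm (Fin n)) : ℝ :=
  ∑ i, ∑ j, if swap i j * ρ = σ then w i j else 0

/-- The law at time `t` of the Markov chain with transition matrix `P` started at `x`. -/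
noncomputable def law {n : ℕ} (P : Perm (Fin n) → Perm (Fin n) → ℝ) (x : Perm (Fin n)) :
    ℕ → Perm (Fin n) → ℝ
  | 0 => fun σ => if σ = x then 1 else 0
  | t + 1 => fun σ => ∑ ρ, law P x t ρ * P ρ σ

/-- Total variation distance to the uniform distribution on the `n!` permutations. -/
noncomputable def tvUniform {n : ℕ} (f : Perm (Fin n) → ℝ) : ℝ :=
  (1 / 2) * ∑ σ, |f σ - 1 / (n.factorial : ℝ)|

/-- Distance to stationarity at time `t`, maximised over the starting state. -/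
noncomputable def worst {n : ℕ} (P : Perm (Fin n) → Perm (Fin n) → ℝ) (t : ℕ) : ℝ :=
  ⨆ x, tvUniform (law P x t)

/-- The mixing time: the least `t` with `worst P t ≤ ε`. -/
noncomputable def tmix {n : ℕ} (P : Perm (Fin n) → Perm (Fin n) → ℝ) (ε : ℝ) : ℕ :=
  sInf {t : ℕ | worst P t ≤ ε}

/-- The sequence of chains exhibits cutoff. -/
def ExhibitsCutoff (P : (n : ℕ) → Perm (Fin n) → Perm (Fin n) → ℝ) : Prop :=
  ∀ ε : ℝ, 0 < ε → ε < 1 →
    Tendsto (fun n => (tmix (P n) ε : ℝ) / (tmix (P n) (1 - ε) : ℝ)) atTop (𝓝 1)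

/-- `p` is a probability distribution on ordered pairs with `c/n² ≤ p i j ≤ C/n²`. -/
def NearlyUniform {n : ℕ} (c C : ℝ) (p : Fin n → Fin n → ℝ) : Prop :=
  (∀ i j, c / (n : ℝ) ^ 2 ≤ p i j ∧ p i j ≤ C / (n : ℝ) ^ 2) ∧ ∑ i, ∑ j, p i j = 1

namespace Aux

open Pool.Agent.Lib.MP8c2010.NU

lemma toSpec {n : ℕ} {c C : ℝ} {p : Fin n → Fin n → ℝ}
    (h : Pool.Agent.Results.MP_8c2010_pr.NearlyUniformCutoff.NearlyUniform c C p) :
    Pool.Agent.Lib.MP8c2010.NU.NearlyUniform c C p :=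
  ⟨fun i j => (h.1 i j).1, fun i j => (h.1 i j).2, h.2⟩

lemma sum_step_left {n : ℕ} (w : Fin n → Fin n → ℝ) (f : Perm (Fin n) → ℝ) (σ : Perm (Fin n)) :
    ∑ ρ, f ρ * stepLeft w ρ σ = ∑ i, ∑ j, w i j * f (swap i j * σ) := by
  simp only [stepLeft, Finset.mul_sum]
  rw [Finset.sum_comm]
  refine Finset.sum_congr rfl fun i _ => ?_
  rw [Finset.sum_comm]
  refine Finset.sum_congr rfl fun j _ => ?_
  rw [Finset.sum_eq_single (swap i j * σ)]
  · rw [if_pos (by rw [← mul_assoc, swap_mul_self, one_mul])]; ring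
  · intro ρ _ hρ
    rw [if_neg, mul_zero]
    intro h
    apply hρ
    rw [← h, ← mul_assoc, swap_mul_self, one_mul]
  · intro h; exact absurd (Finset.mem_univ _) h

lemma sum_step_right {n : ℕ} (w : Fin n → Fin n → ℝ) (f : Perm (Fin n) → ℝ) (σ : Perm (Fin n)) :
    ∑ ρ, f ρ * stepRight w ρ σ = ∑ i, ∑ j, w i j * f (σ * swap i j) := by
  simp only [stepRight, Finset.mul_sum]
  rw [Finset.sum_comm]
  refine Finset.sum_congr rfl fun i _ => ?_
  rw [Finset.sum_comm]
  refine Finset.sum_congr rfl fun j _ => ?_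
  rw [Finset.sum_eq_single (σ * swap i j)]
  · rw [if_pos (by rw [mul_assoc, swap_mul_self, mul_one])]; ring
  · intro ρ _ hρ
    rw [if_neg, mul_zero]
    intro h
    apply hρ
    rw [← h, mul_assoc, swap_mul_self, mul_one]
  · intro h; exact absurd (Finset.mem_univ _) h

lemma fac_ne (n : ℕ) : (n.factorial : ℝ) ≠ 0 := by exact_mod_cast n.factorial_ne_zero

lemma law_left {n : ℕ} (p : Fin n → Fin n → ℝ) (x : Perm (Fin n)) (t : ℕ) (σ : Perm (Fin n)) :
    law (stepLeft p) x t σ = dens p t (x * σ⁻¹) / (n.factorial : ℝ) := by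
  induction t generalizing σ with
  | zero =>
    simp only [law, dens]
    by_cases h : σ = x
    · subst h; simp; exact (div_self (fac_ne n)).symm
    · rw [if_neg h, if_neg (by rw [mul_inv_eq_one]; exact fun h' => h h'.symm), zero_div]
  | succ t ih =>
    change ∑ ρ, law (stepLeft p) x t ρ * _ = _
    rw [sum_step_left]
    simp only [dens, Pop]
    rw [Finset.sum_div]
    refine Finset.sum_congr rfl fun i _ => ?_
    rw [Finset.sum_div]
    refine Finset.sum_congr rfl fun j _ => ?_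
    rw [ih, mul_inv_rev, swap_inv, ← mul_assoc, mul_div_assoc]

lemma law_right {n : ℕ} (p : Fin n → Fin n → ℝ) (x : Perm (Fin n)) (t : ℕ) (σ : Perm (Fin n)) :
    law (stepRight p) x t σ = dens p t (x⁻¹ * σ) / (n.factorial : ℝ) := by
  induction t generalizing σ with
  | zero =>
    simp only [law, dens]
    by_cases h : σ = x
    · subst h; simp; exact (div_self (fac_ne n)).symm
    · rw [if_neg h, if_neg (by rw [inv_mul_eq_one]; exact fun h' => h h'.symm), zero_div]
  | succ t ih =>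
    change ∑ ρ, law (stepRight p) x t ρ * _ = _
    rw [sum_step_right]
    simp only [dens, Pop]
    rw [Finset.sum_div]
    refine Finset.sum_congr rfl fun i _ => ?_
    rw [Finset.sum_div]
    refine Finset.sum_congr rfl fun j _ => ?_
    rw [ih, ← mul_assoc, mul_div_assoc]

lemma tv_eq {n : ℕ} (p : Fin n → Fin n → ℝ) (t : ℕ) (f : Perm (Fin n) → ℝ)
    (e : Perm (Fin n) ≃ Perm (Fin n)) (h : ∀ σ, f σ = dens p t (e σ) / (n.factorial : ℝ)) :
    tvUniform f = tv p t := by
  have hf : (0 : ℝ) < n.factorial := by exact_mod_cast n.factorial_pos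
  rw [tvUniform, tv, EU]
  congr 1
  rw [Finset.sum_div]
  refine Fintype.sum_equiv e _ _ fun σ => ?_
  rw [h, ← sub_div, abs_div, abs_of_pos hf]

lemma worst_left {n : ℕ} (p : Fin n → Fin n → ℝ) (t : ℕ) : worst (stepLeft p) t = tv p t := by
  rw [worst]
  have : ∀ x, tvUniform (law (stepLeft p) x t) = tv p t := fun x =>
    tv_eq p t _ ((Equiv.inv (Perm (Fin n))).trans (Equiv.mulLeft x)) fun σ => law_left p x t σ
  simp only [this]
  exact ciSup_const

lemma worst_right {n : ℕ} (p : Fin n → Fin n → ℝ) (t : ℕ) : worst (stepRight p) t = tv p t := by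
  rw [worst]
  have : ∀ x, tvUniform (law (stepRight p) x t) = tv p t := fun x =>
    tv_eq p t _ (Equiv.mulLeft x⁻¹) fun σ => law_right p x t σ
  simp only [this]
  exact ciSup_const

/-- mixing time in terms of `tv` -/
noncomputable def tm {n : ℕ} (p : Fin n → Fin n → ℝ) (ε : ℝ) : ℕ := sInf {t : ℕ | tv p t ≤ ε}

lemma tmix_left {n : ℕ} (p : Fin n → Fin n → ℝ) (ε : ℝ) : tmix (stepLeft p) ε = tm p ε := by
  simp only [tmix, tm, worst_left]

lemma tmix_right {n : ℕ} (p : Fin n → Fin n → ℝ) (ε : ℝ) : tmix (stepRight p) ε = tm p ε := by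
  simp only [tmix, tm, worst_right]

/-- one log log is dominated -/
lemma loglog {n : ℕ} (hn : 16 ≤ n) : 1 ≤ Real.log (Real.log n) ∧
    1 + Real.log (1 + Real.log n) ≤ 3 * Real.log (Real.log n) ∧ 1 ≤ Real.log n := by
  have h16 : (16 : ℝ) ≤ n := by exact_mod_cast hn
  have e1 : Real.exp 1 < 2.7182818286 := Real.exp_one_lt_d9
  have hl : Real.exp 1 ≤ Real.log n := by
    have h2 : Real.log 16 = 4 * Real.log 2 := by
      rw [show (16 : ℝ) = 2 ^ 4 by norm_num, Real.log_pow]; norm_num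
    have h3 : (0.6931471803 : ℝ) < Real.log 2 := Real.log_two_gt_d9
    have h4 : Real.log 16 ≤ Real.log n := Real.log_le_log (by norm_num) h16
    linarith
  have hl1 : 1 ≤ Real.log n := by
    have : (1 : ℝ) ≤ Real.exp 1 := by
      have := Real.add_one_le_exp (1 : ℝ)
      linarith
    linarith
  have h5 : 1 ≤ Real.log (Real.log n) := by
    rw [Real.le_log_iff_exp_le (by linarith)]
    exact hl
  refine ⟨h5, ?_, hl1⟩
  have h6 : Real.log (1 + Real.log n) ≤ Real.log (2 * Real.log n) :=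
    Real.log_le_log (by linarith) (by linarith)
  rw [Real.log_mul (by norm_num) (by linarith)] at h6
  have h7 : Real.log 2 < 0.6931471808 := Real.log_two_lt_d9
  linarith

section core

variable (hMON : SpecMON) (hUPP : SpecUPP) (hWIN : SpecWIN) (hLOW : SpecLOW)

include hUPP in
lemma tm_mem {c C ε : ℝ} (hc : 0 < c) (hε : 0 < ε) {n : ℕ} (hn : 2 ≤ n)
    {p : Fin n → Fin n → ℝ} (hp : Pool.Agent.Lib.MP8c2010.NU.NearlyUniform c C p) :
    tv p (tm p ε) ≤ ε := by
  obtain ⟨K, hK, h⟩ := hUPP c C ε hc hε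
  refine Nat.sInf_mem (s := {t : ℕ | tv p t ≤ ε}) ⟨⌈K * n * (1 + Real.log n)⌉₊, ?_⟩
  exact h n p hn hp _ (Nat.le_ceil _)

include hUPP in
lemma tm_anti {c C a b : ℝ} (hc : 0 < c) (ha : 0 < a) (hab : a ≤ b) {n : ℕ} (hn : 2 ≤ n)
    {p : Fin n → Fin n → ℝ} (hp : Pool.Agent.Lib.MP8c2010.NU.NearlyUniform c C p) :
    tm p b ≤ tm p a :=
  Nat.sInf_le (m := tm p a) (s := {t : ℕ | tv p t ≤ b})
    ((tm_mem hUPP hc ha hn hp).trans hab)

include hUPP in
lemma tm_le {c C ε : ℝ} (hc : 0 < c) (hε : 0 < ε) :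
    ∃ K : ℝ, 0 < K ∧ ∀ (n : ℕ) (p : Fin n → Fin n → ℝ), 16 ≤ n →
      Pool.Agent.Lib.MP8c2010.NU.NearlyUniform c C p → (tm p ε : ℝ) ≤ K * n * Real.log n := by
  obtain ⟨K, hK, h⟩ := hUPP c C ε hc hε
  refine ⟨2 * K + 1, by positivity, fun n p hn hp => ?_⟩
  obtain ⟨_, _, hl⟩ := loglog hn
  have h16 : (16 : ℝ) ≤ n := by exact_mod_cast hn
  have h1 : tm p ε ≤ ⌈K * n * (1 + Real.log n)⌉₊ :=
    Nat.sInf_le (h n p (by omega) hp _ (Nat.le_ceil _))
  have h2 : (tm p ε : ℝ) ≤ ⌈K * n * (1 + Real.log n)⌉₊ := by exact_mod_cast h1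
  have h3 : (⌈K * n * (1 + Real.log n)⌉₊ : ℝ) < K * n * (1 + Real.log n) + 1 :=
    Nat.ceil_lt_add_one (by positivity)
  have h4 : K * n * (1 + Real.log n) ≤ K * n * (2 * Real.log n) :=
    mul_le_mul_of_nonneg_left (by linarith) (by positivity)
  have h5 : (1 : ℝ) ≤ n * Real.log n := by nlinarith
  nlinarith

include hUPP hLOW in
lemma le_tm {c C ε : ℝ} (hc : 0 < c) (hC : 1 ≤ C) (hε : 0 < ε) (hε1 : ε < 1) :
    ∃ κ : ℝ, 0 < κ ∧ ∃ n0 : ℕ, ∀ (n : ℕ) (p : Fin n → Fin n → ℝ), n0 ≤ n → 2 ≤ n →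
      Pool.Agent.Lib.MP8c2010.NU.NearlyUniform c C p → κ * n * Real.log n ≤ (tm p ε : ℝ) := by
  obtain ⟨κ, hκ, n0, h⟩ := hLOW C (1 - ε) hC (by linarith)
  refine ⟨κ, hκ, n0, fun n p hn hn2 hp => ?_⟩
  by_contra hcon
  push Not at hcon
  have h1 := h n c p hn hc hp (tm p ε) hcon.le
  have h2 := tm_mem hUPP hc hε hn2 hp
  linarith

include hUPP hWIN in
lemma window {c C ε : ℝ} (hc : 0 < c) (hε : 0 < ε) (hε1 : ε < 1) :
    ∃ K : ℝ, 0 < K ∧ ∀ (n : ℕ) (p : Fin n → Fin n → ℝ), 16 ≤ n →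
      Pool.Agent.Lib.MP8c2010.NU.NearlyUniform c C p →
      (tm p ε : ℝ) ≤ tm p (1 - ε) + K * n * Real.log (Real.log n) := by
  obtain ⟨K, hK, h⟩ := hWIN c C ε hc hε hε1
  refine ⟨3 * K + 1, by positivity, fun n p hn hp => ?_⟩
  obtain ⟨hll, hll2, hl⟩ := loglog hn
  have h16 : (16 : ℝ) ≤ n := by exact_mod_cast hn
  set Z : ℝ := K * n * (1 + Real.log (1 + Real.log n)) with hZ
  have hZ0 : 0 ≤ Z := by
    have : 0 ≤ Real.log (1 + Real.log n) := Real.log_nonneg (by linarith)
    positivity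
  have h1 := h n p (by omega) hp (tm p (1 - ε)) ⌈(tm p (1 - ε) : ℝ) + Z⌉₊
    (tm_mem hUPP hc (by linarith) (by omega) hp) (Nat.le_ceil _)
  have h2 : tm p ε ≤ ⌈(tm p (1 - ε) : ℝ) + Z⌉₊ := Nat.sInf_le h1
  have h3 : (tm p ε : ℝ) ≤ ⌈(tm p (1 - ε) : ℝ) + Z⌉₊ := by exact_mod_cast h2
  have h4 : (⌈(tm p (1 - ε) : ℝ) + Z⌉₊ : ℝ) < (tm p (1 - ε) : ℝ) + Z + 1 :=
    Nat.ceil_lt_add_one (by positivity)
  have h5 : Z ≤ K * n * (3 * Real.log (Real.log n)) :=
    mul_le_mul_of_nonneg_left hll2 (by positivity)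
  have h6 : (1 : ℝ) ≤ n * Real.log (Real.log n) := by nlinarith
  nlinarith

include hUPP hWIN in
lemma window_abs {c C ε : ℝ} (hc : 0 < c) (hε : 0 < ε) (hε1 : ε < 1) :
    ∃ K : ℝ, 0 < K ∧ ∀ (n : ℕ) (p : Fin n → Fin n → ℝ), 16 ≤ n →
      Pool.Agent.Lib.MP8c2010.NU.NearlyUniform c C p →
      |(tm p ε : ℝ) - tm p (1 - ε)| ≤ K * n * Real.log (Real.log n) := by
  obtain ⟨K1, hK1, h1⟩ := window hUPP hWIN (C := C) hc hε hε1
  obtain ⟨K2, hK2, h2⟩ := window hUPP hWIN (C := C) hc (ε := 1 - ε) (by linarith) (by linarith)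
  refine ⟨K1 + K2, by positivity, fun n p hn hp => ?_⟩
  obtain ⟨hll, hll2, hl⟩ := loglog hn
  have h16 : (16 : ℝ) ≤ n := by exact_mod_cast hn
  have e1 := h1 n p hn hp
  have e2 := h2 n p hn hp
  rw [sub_sub_cancel] at e2
  have hpos : 0 ≤ (n : ℝ) * Real.log (Real.log n) := by positivity
  have g1 : 0 ≤ K1 * n * Real.log (Real.log n) := by rw [mul_assoc]; positivity
  have g2 : 0 ≤ K2 * n * Real.log (Real.log n) := by rw [mul_assoc]; positivity
  rw [abs_le]
  constructor <;> nlinarith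

include hUPP hWIN hLOW in
lemma cutoff {c C : ℝ} (hc : 0 < c) (hC : 1 ≤ C) (p : (n : ℕ) → Fin n → Fin n → ℝ)
    (hp : ∀ n, 2 ≤ n → Pool.Agent.Lib.MP8c2010.NU.NearlyUniform c C (p n)) {ε : ℝ} (hε : 0 < ε)
    (hε1 : ε < 1) :
    Tendsto (fun n => (tm (p n) ε : ℝ) / (tm (p n) (1 - ε) : ℝ)) atTop (𝓝 1) := by
  obtain ⟨K, hK, hw⟩ := window_abs hUPP hWIN (C := C) hc hε hε1
  obtain ⟨κ, hκ, n0, hl⟩ := le_tm hUPP hLOW hc hC (ε := 1 - ε) (by linarith) (by linarith)
  have hlog : Tendsto (fun n : ℕ => Real.log n) atTop atTop :=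
    Real.tendsto_log_atTop.comp tendsto_natCast_atTop_atTop
  have hq : Tendsto (fun n : ℕ => K / κ * (Real.log (Real.log n) / Real.log n)) atTop (𝓝 0) := by
    have h0 : Tendsto (fun x : ℝ => Real.log x / x) atTop (𝓝 0) := by
      have := Real.isLittleO_log_id_atTop.tendsto_div_nhds_zero
      simpa using this
    have := (h0.comp hlog).const_mul (K / κ)
    simpa using this
  rw [tendsto_iff_norm_sub_tendsto_zero]
  refine squeeze_zero' (Eventually.of_forall fun n => norm_nonneg _) ?_ hq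
  filter_upwards [eventually_ge_atTop (max n0 16)] with n hn
  have hn0 : n0 ≤ n := (le_max_left _ _).trans hn
  have hn16 : 16 ≤ n := (le_max_right _ _).trans hn
  obtain ⟨hll, hll2, hl1⟩ := loglog hn16
  have h16 : (16 : ℝ) ≤ n := by exact_mod_cast hn16
  have h1 := hw n (p n) hn16 (hp n (by omega))
  have h2 := hl n (p n) hn0 (by omega) (hp n (by omega))
  have h3 : 0 < κ * n * Real.log n := by positivity
  have h4 : (0 : ℝ) < tm (p n) (1 - ε) := lt_of_lt_of_le h3 h2
  rw [Real.norm_eq_abs, div_sub_one h4.ne', abs_div, abs_of_pos h4]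
  calc |(tm (p n) ε : ℝ) - tm (p n) (1 - ε)| / (tm (p n) (1 - ε) : ℝ)
      ≤ (K * n * Real.log (Real.log n)) / (κ * n * Real.log n) := by
        apply div_le_div₀ (by positivity) h1 h3 h2
    _ = K / κ * (Real.log (Real.log n) / Real.log n) := by
        field_simp

include hUPP hWIN hLOW in
theorem main :
    (∀ c C : ℝ, 0 < c → c ≤ C → ∀ p : (n : ℕ) → Fin n → Fin n → ℝ,
      (∀ n, 2 ≤ n → Pool.Agent.Results.MP_8c2010_pr.NearlyUniformCutoff.NearlyUniform c C (p n)) →
      ExhibitsCutoff (fun n => stepRight (p n)) ∧ ExhibitsCutoff (fun n => stepLeft (p n))) ∧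
    (∀ c C : ℝ, 0 < c → c ≤ C → ∀ ε : ℝ, 0 < ε → ε < 1 → ∃ K : ℝ, 0 < K ∧ ∃ n0 : ℕ,
      ∀ (n : ℕ) (p : Fin n → Fin n → ℝ), n0 ≤ n →
      Pool.Agent.Results.MP_8c2010_pr.NearlyUniformCutoff.NearlyUniform c C p →
      ∀ P : Perm (Fin n) → Perm (Fin n) → ℝ, P = stepRight p ∨ P = stepLeft p →
        n * Real.log n / K ≤ tmix P ε ∧ (tmix P ε : ℝ) ≤ K * n * Real.log n ∧
        |(tmix P ε : ℝ) - tmix P (1 - ε)| ≤ K * n * Real.log (Real.log n)) := by
  constructor
  · intro c C hc hcC p hp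
    have hC : 1 ≤ C := by
      obtain ⟨h1, h2⟩ := hp 2 le_rfl
      have e : ∑ i : Fin 2, ∑ j : Fin 2, p 2 i j ≤ ∑ _i : Fin 2, ∑ _j : Fin 2, C / ((2 : ℕ) : ℝ) ^ 2 :=
        Finset.sum_le_sum fun i _ => Finset.sum_le_sum fun j _ => (h1 i j).2
      rw [h2] at e
      simp only [Finset.sum_const, Finset.card_univ, Fintype.card_fin, nsmul_eq_mul] at e
      push_cast at e
      linarith
    constructor
    · intro ε hε hε1
      simp only [tmix_right]
      exact cutoff hUPP hWIN hLOW hc hC p (fun n hn => toSpec (hp n hn)) hε hε1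
    · intro ε hε hε1
      simp only [tmix_left]
      exact cutoff hUPP hWIN hLOW hc hC p (fun n hn => toSpec (hp n hn)) hε hε1
  · intro c C hc hcC ε hε hε1
    by_cases hC : 1 ≤ C
    · obtain ⟨K1, hK1, hw⟩ := window_abs hUPP hWIN (C := C) hc hε hε1
      obtain ⟨κ, hκ, n0, hl⟩ := le_tm hUPP hLOW hc hC hε hε1
      obtain ⟨K2, hK2, hu⟩ := tm_le hUPP (C := C) hc hε
      refine ⟨K1 + K2 + 1 / κ, by positivity, max n0 16, fun n p hn hp P hP => ?_⟩
      have hn0 : n0 ≤ n := (le_max_left _ _).trans hn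
      have hn16 : 16 ≤ n := (le_max_right _ _).trans hn
      obtain ⟨hll, hll2, hl1⟩ := loglog hn16
      have h16 : (16 : ℝ) ≤ n := by exact_mod_cast hn16
      have hp' := toSpec hp
      have e1 := hl n p hn0 (by omega) hp'
      have e2 := hu n p hn16 hp'
      have e3 := hw n p hn16 hp'
      have hP1 : tmix P ε = tm p ε := by
        rcases hP with rfl | rfl
        · exact tmix_right p ε
        · exact tmix_left p ε
      have hP2 : tmix P (1 - ε) = tm p (1 - ε) := by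
        rcases hP with rfl | rfl
        · exact tmix_right p _
        · exact tmix_left p _
      rw [hP1, hP2]
      have hnl : 0 < (n : ℝ) * Real.log n := by positivity
      have hnll : 0 < (n : ℝ) * Real.log (Real.log n) := by positivity
      refine ⟨?_, ?_, ?_⟩
      · refine le_trans ?_ e1
        rw [div_le_iff₀ (by positivity)]
        have : κ * n * Real.log n * (1 / κ) = n * Real.log n := by field_simp
        have h5 : 0 ≤ κ * n * Real.log n * (K1 + K2) := by positivity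
        calc (n : ℝ) * Real.log n = κ * n * Real.log n * (1 / κ) := this.symm
          _ ≤ κ * n * Real.log n * (K1 + K2 + 1 / κ) := by nlinarith
      · refine e2.trans ?_
        have : 0 ≤ (K1 + 1 / κ) * (n * Real.log n) := by positivity
        nlinarith
      · refine e3.trans ?_
        have : 0 ≤ (K2 + 1 / κ) * (n * Real.log (Real.log n)) := by positivity
        nlinarith
    · refine ⟨1, one_pos, 2, fun n p hn hp => ?_⟩
      exfalso
      apply hC
      obtain ⟨h1, h2⟩ := hp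
      have hn0 : (0 : ℝ) < n := by
        have : (2 : ℝ) ≤ n := by exact_mod_cast hn
        linarith
      have e : ∑ i : Fin n, ∑ j : Fin n, p i j ≤ ∑ _i : Fin n, ∑ _j : Fin n, C / (n : ℝ) ^ 2 :=
        Finset.sum_le_sum fun i _ => Finset.sum_le_sum fun j _ => (h1 i j).2
      rw [h2] at e
      simp only [Finset.sum_const, Finset.card_univ, Fintype.card_fin, nsmul_eq_mul] at e
      have : (n : ℝ) * (n * (C / (n : ℝ) ^ 2)) = C := by field_simp
      linarith

end core

end Aux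

/-- Every sequence of nearly uniform random transposition walks exhibits cutoff; the mixing times
are of order `n log n` and the window is at most of order `n log log n`, uniformly in the
weights. -/
theorem result :
    (∀ c C : ℝ, 0 < c → c ≤ C → ∀ p : (n : ℕ) → Fin n → Fin n → ℝ,
      (∀ n, 2 ≤ n → NearlyUniform c C (p n)) →
      ExhibitsCutoff (fun n => stepRight (p n)) ∧ ExhibitsCutoff (fun n => stepLeft (p n))) ∧
    (∀ c C : ℝ, 0 < c → c ≤ C → ∀ ε : ℝ, 0 < ε → ε < 1 → ∃ K : ℝ, 0 < K ∧ ∃ n0 : ℕ,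
      ∀ (n : ℕ) (p : Fin n → Fin n → ℝ), n0 ≤ n → NearlyUniform c C p →
      ∀ P : Perm (Fin n) → Perm (Fin n) → ℝ, P = stepRight p ∨ P = stepLeft p →
        n * Real.log n / K ≤ tmix P ε ∧ (tmix P ε : ℝ) ≤ K * n * Real.log n ∧
        |(tmix P ε : ℝ) - tmix P (1 - ε)| ≤ K * n * Real.log (Real.log n)) :=
  Aux.main Pool.Agent.Lib.MP8c2010.NU.allUPP Pool.Agent.Lib.MP8c2010.NU.allWIN
    Pool.Agent.Lib.MP8c2010.NU.allLOW

end Pool.Agent.Results.MP_8c2010_pr.NearlyUniformCutoff
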