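import Pool.Agent.Lib.MP_8c2010_pr.Asym

set_option autoImplicit false

/-! # Cutoff for nearly uniform random transposition walks with product weights -/

namespace Pool.Agent.Results.MP_8c2010_pr.ProductCutoff

open Equiv Finset Filter Topology

/-- One step of the walk, transposition composed on the right:
probability of moving from `ρ` to `σ` when the pair `(i, j)` has probability `w i j`. -/
noncomputable def stepRight {n : ℕ} (w : Fin n → Fin n → ℝ) (ρ σ : Perm (Fin n)) : ℝ :=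
  ∑ i, ∑ j, if ρ * swap i j = σ then w i j else 0

/-- One step of the walk, transposition composed on the left. -/
noncomputable def stepLeft {n : ℕ} (w : Fin n → Fin n → ℝ) (ρ σ : Perm (Fin n)) : ℝ :=
  ∑ i, ∑ j, if swap i j * ρ = σ then w i j else 0

/-- The law at time `t` of the Markov chain with transition matrix `P` started at `x`. -/
noncomputable def law {n : ℕ} (P : Perm (Fin n) → Perm (Fin n) → ℝ) (x : Perm (Fin n)) :
    ℕ → Perm (Fin n) → ℝ
  | 0 => fun σ => if σ = x then 1 else 0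
  | t + 1 => fun σ => ∑ ρ, law P x t ρ * P ρ σ

/-- Total variation distance to the uniform distribution on the `n!` permutations. -/
noncomputable def tvUniform {n : ℕ} (f : Perm (Fin n) → ℝ) : ℝ :=
  (1 / 2) * ∑ σ, |f σ - 1 / (n.factorial : ℝ)|

/-- Distance to stationarity at time `t`, maximised over the starting state. -/
noncomputable def worst {n : ℕ} (P : Perm (Fin n) → Perm (Fin n) → ℝ) (t : ℕ) : ℝ :=
  ⨆ x, tvUniform (law P x t)

/-- The mixing time: the least `t` with `worst P t ≤ ε`. -/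
noncomputable def tmix {n : ℕ} (P : Perm (Fin n) → Perm (Fin n) → ℝ) (ε : ℝ) : ℕ :=
  sInf {t : ℕ | worst P t ≤ ε}

/-- The sequence of chains exhibits cutoff. -/
def ExhibitsCutoff (P : (n : ℕ) → Perm (Fin n) → Perm (Fin n) → ℝ) : Prop :=
  ∀ ε : ℝ, 0 < ε → ε < 1 →
    Tendsto (fun n => (tmix (P n) ε : ℝ) / (tmix (P n) (1 - ε) : ℝ)) atTop (𝓝 1)

/-- The mixing times are asymptotic to `τ`. -/
def MixesAt (P : (n : ℕ) → Perm (Fin n) → Perm (Fin n) → ℝ) (τ : ℕ → ℝ) : Prop :=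
  ∀ ε : ℝ, 0 < ε → ε < 1 → Tendsto (fun n => (tmix (P n) ε : ℝ) / τ n) atTop (𝓝 1)

open Pool.Agent.Lib.MP_8c2010_pr

/-! ### The law of the chain -/

lemma sum_step_left {n : ℕ} (w : Fin n → Fin n → ℝ) (f : Perm (Fin n) → ℝ) (σ : Perm (Fin n)) :
    ∑ ρ, f ρ * stepLeft w ρ σ = ∑ i, ∑ j, w i j * f (swap i j * σ) := by
  simp only [stepLeft, Finset.mul_sum]
  rw [Finset.sum_comm]
  refine Finset.sum_congr rfl fun i _ => ?_
  rw [Finset.sum_comm]
  refine Finset.sum_congr rfl fun j _ => ?_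
  rw [Finset.sum_eq_single (swap i j * σ)]
  · rw [if_pos (by rw [← mul_assoc, swap_mul_self, one_mul])]; ring
  · intro ρ _ hρ
    rw [if_neg, mul_zero]
    intro h
    apply hρ
    rw [← h, ← mul_assoc, swap_mul_self, one_mul]
  · intro h; exact absurd (Finset.mem_univ _) h

lemma sum_step_right {n : ℕ} (w : Fin n → Fin n → ℝ) (f : Perm (Fin n) → ℝ) (σ : Perm (Fin n)) :
    ∑ ρ, f ρ * stepRight w ρ σ = ∑ i, ∑ j, w i j * f (σ * swap i j) := by
  simp only [stepRight, Finset.mul_sum]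
  rw [Finset.sum_comm]
  refine Finset.sum_congr rfl fun i _ => ?_
  rw [Finset.sum_comm]
  refine Finset.sum_congr rfl fun j _ => ?_
  rw [Finset.sum_eq_single (σ * swap i j)]
  · rw [if_pos (by rw [mul_assoc, swap_mul_self, mul_one])]; ring
  · intro ρ _ hρ
    rw [if_neg, mul_zero]
    intro h
    apply hρ
    rw [← h, mul_assoc, swap_mul_self, mul_one]
  · intro h; exact absurd (Finset.mem_univ _) h

lemma law_left {n : ℕ} (p : Fin n → ℝ) (x : Perm (Fin n)) (t : ℕ) (σ : Perm (Fin n)) :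
    law (stepLeft (fun i j => p i * p j)) x t σ = lawL p t (σ * x⁻¹) := by
  induction t generalizing σ with
  | zero =>
    simp only [law, lawL, mul_inv_eq_one]
  | succ t ih =>
    change ∑ ρ, law (stepLeft (fun i j => p i * p j)) x t ρ * _ = _
    rw [sum_step_left, lawL_succ, Fintype.sum_prod_type]
    refine Finset.sum_congr rfl fun i _ => Finset.sum_congr rfl fun j _ => ?_
    rw [ih, mul_assoc (swap i j) σ]
    rfl

lemma law_right {n : ℕ} (p : Fin n → ℝ) (x : Perm (Fin n)) (t : ℕ) (σ : Perm (Fin n)) :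
    law (stepRight (fun i j => p i * p j)) x t σ = lawL p t (σ⁻¹ * x) := by
  induction t generalizing σ with
  | zero =>
    simp only [law, lawL, inv_mul_eq_one]
  | succ t ih =>
    change ∑ ρ, law (stepRight (fun i j => p i * p j)) x t ρ * _ = _
    rw [sum_step_right, lawL_succ, Fintype.sum_prod_type]
    refine Finset.sum_congr rfl fun i _ => Finset.sum_congr rfl fun j _ => ?_
    rw [ih, mul_inv_rev, swap_inv, mul_assoc (swap i j) σ⁻¹]
    rfl

/-- total variation distance of the walk started at the identity -/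
noncomputable def dist1 {n : ℕ} (p : Fin n → ℝ) (t : ℕ) : ℝ := tvUniform (lawL p t)

lemma tv_left {n : ℕ} (p : Fin n → ℝ) (x : Perm (Fin n)) (t : ℕ) :
    tvUniform (law (stepLeft (fun i j => p i * p j)) x t) = dist1 p t := by
  rw [dist1, tvUniform, tvUniform]
  congr 1
  simp only [law_left]
  exact Fintype.sum_equiv (Equiv.mulRight x⁻¹) _ _ fun σ => rfl

lemma tv_right {n : ℕ} (p : Fin n → ℝ) (x : Perm (Fin n)) (t : ℕ) :
    tvUniform (law (stepRight (fun i j => p i * p j)) x t) = dist1 p t := by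
  rw [dist1, tvUniform, tvUniform]
  congr 1
  simp only [law_right]
  exact Fintype.sum_equiv ((Equiv.inv (Perm (Fin n))).trans (Equiv.mulRight x)) _ _ fun σ => rfl

lemma worst_left {n : ℕ} (p : Fin n → ℝ) (t : ℕ) :
    worst (stepLeft (fun i j => p i * p j)) t = dist1 p t := by
  rw [worst]
  simp only [tv_left]
  exact ciSup_const

lemma worst_right {n : ℕ} (p : Fin n → ℝ) (t : ℕ) :
    worst (stepRight (fun i j => p i * p j)) t = dist1 p t := by
  rw [worst]
  simp only [tv_right]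
  exact ciSup_const

/-! ### Test functions -/

lemma av_empty {n : ℕ} (φ : Perm (Fin n) → ℝ) :
    av φ ∅ 1 = ∑ σ, (1 / (n.factorial : ℝ)) * φ σ := by
  have h1 : ext (∅ : Finset (Fin n)) (1 : Perm (Fin n)) = Finset.univ := by
    ext X; simp [mem_ext]
  rw [av, h1, Finset.card_univ, Fintype.card_perm, Fintype.card_fin, ← Finset.mul_sum]
  ring

lemma Ew_sub_av {n : ℕ} (p : Fin n → ℝ) (t : ℕ) (φ : Perm (Fin n) → ℝ) :
    Ew p t (fun w => φ (Xw w)) - av φ ∅ 1 =
      ∑ σ, (lawL p t σ - 1 / (n.factorial : ℝ)) * φ σ := by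
  rw [← sum_lawL, av_empty, ← Finset.sum_sub_distrib]
  exact Finset.sum_congr rfl fun σ _ => by ring

/-- the distance is attained by a test function -/
lemma dist_le {n : ℕ} (p : Fin n → ℝ) (t : ℕ) {M : ℝ}
    (h : ∀ φ : Perm (Fin n) → ℝ, (∀ X, |φ X| ≤ 1) →
      |Ew p t (fun w => φ (Xw w)) - av φ ∅ 1| ≤ M) :
    dist1 p t ≤ M / 2 := by
  have h0 : ∀ φ : Perm (Fin n) → ℝ, (∀ X, |φ X| ≤ 1) →
      |∑ σ, (lawL p t σ - 1 / (n.factorial : ℝ)) * φ σ| ≤ M := by
    intro φ hφ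
    rw [← Ew_sub_av]
    exact h φ hφ
  have h1 := h0 (fun σ => if 0 ≤ lawL p t σ - 1 / (n.factorial : ℝ) then 1 else -1)
    (fun X => by split_ifs <;> simp)
  have h2 : ∑ σ, (lawL p t σ - 1 / (n.factorial : ℝ)) *
      (if 0 ≤ lawL p t σ - 1 / (n.factorial : ℝ) then (1 : ℝ) else -1) =
      ∑ σ, |lawL p t σ - 1 / (n.factorial : ℝ)| := by
    refine Finset.sum_congr rfl fun σ _ => ?_
    split_ifs with h3
    · rw [abs_of_nonneg h3, mul_one]
    · rw [abs_of_neg (not_le.1 h3)]; ring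
  rw [h2] at h1
  have h3 := (le_abs_self _).trans h1
  rw [dist1, tvUniform]
  linarith

/-- the distance dominates the discrepancy of every test function with values in `[0,1]` -/
lemma le_dist {n : ℕ} {p : Fin n → ℝ} (hs : ∑ i, p i = 1) (t : ℕ) {φ : Perm (Fin n) → ℝ}
    (h0 : ∀ X, 0 ≤ φ X) (h1 : ∀ X, φ X ≤ 1) :
    Ew p t (fun w => φ (Xw w)) - av φ ∅ 1 ≤ dist1 p t := by
  have e1 : ∑ σ, lawL p t σ = 1 := by
    have := sum_lawL p t (fun _ => (1 : ℝ))
    rw [Ew_const hs] at this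
    simpa using this
  have e2 : ∑ _σ : Perm (Fin n), (1 / (n.factorial : ℝ)) = 1 := by
    rw [Finset.sum_const, Finset.card_univ, Fintype.card_perm, Fintype.card_fin, nsmul_eq_mul]
    have : (n.factorial : ℝ) ≠ 0 := by exact_mod_cast n.factorial_ne_zero
    field_simp
  have e3 : ∑ σ, (lawL p t σ - 1 / (n.factorial : ℝ)) = 0 := by
    rw [Finset.sum_sub_distrib, e1, e2, sub_self]
  rw [Ew_sub_av]
  have e4 : ∑ σ, (lawL p t σ - 1 / (n.factorial : ℝ)) * φ σ =
      ∑ σ, (lawL p t σ - 1 / (n.factorial : ℝ)) * (φ σ - 1 / 2) := by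
    have : ∑ σ, (lawL p t σ - 1 / (n.factorial : ℝ)) * (φ σ - 1 / 2) =
        ∑ σ, (lawL p t σ - 1 / (n.factorial : ℝ)) * φ σ -
          (1 / 2) * ∑ σ, (lawL p t σ - 1 / (n.factorial : ℝ)) := by
      rw [Finset.mul_sum, ← Finset.sum_sub_distrib]
      exact Finset.sum_congr rfl fun σ _ => by ring
    rw [this, e3]; ring
  rw [e4, dist1, tvUniform, Finset.mul_sum]
  refine Finset.sum_le_sum fun σ _ => ?_
  refine (le_abs_self _).trans ?_
  rw [abs_mul, mul_comm]
  refine mul_le_mul_of_nonneg_right ?_ (abs_nonneg _)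
  rw [abs_le]
  exact ⟨by linarith [h0 σ], by linarith [h1 σ]⟩

/-! ### The critical time -/

lemma exists_tau {n : ℕ} (hn : 1 ≤ n) {c : ℝ} (hc : 0 < c) {p : Fin n → ℝ}
    (hp : ∀ i, c / n ≤ p i) : ∃ τ : ℝ, ∑ i, Real.exp (-(2 * p i * τ)) = 1 := by
  have hn0 : (1 : ℝ) ≤ n := by exact_mod_cast hn
  have hN0 : (0 : ℝ) < n := by linarith
  have hL : 0 ≤ Real.log n := Real.log_nonneg hn0
  set T : ℝ := n * Real.log n / (2 * c) with hT
  have hT0 : 0 ≤ T := by positivity
  have hcont : ContinuousOn (fun τ : ℝ => ∑ i, Real.exp (-(2 * p i * τ))) (Set.Icc 0 T) := by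
    refine Continuous.continuousOn ?_
    fun_prop
  have h0 : (1 : ℝ) ≤ ∑ i, Real.exp (-(2 * p i * 0)) := by
    simp only [mul_zero, neg_zero, Real.exp_zero]
    rw [Finset.sum_const, Finset.card_univ, Fintype.card_fin, nsmul_eq_mul, mul_one]
    exact hn0
  have hT1 : ∑ i, Real.exp (-(2 * p i * T)) ≤ 1 := by
    calc ∑ i, Real.exp (-(2 * p i * T)) ≤ ∑ _i : Fin n, Real.exp (-Real.log n) := by
          refine Finset.sum_le_sum fun i _ => ?_
          rw [Real.exp_le_exp, neg_le_neg_iff]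
          have h1 := mul_le_mul_of_nonneg_right (hp i) hT0
          have h2 : c / n * T = Real.log n / 2 := by rw [hT]; field_simp
          linarith
      _ = 1 := by
          rw [Finset.sum_const, Finset.card_univ, Fintype.card_fin, nsmul_eq_mul, Real.exp_neg,
            Real.exp_log hN0]
          field_simp
  have h := intermediate_value_Icc' hT0 hcont
  obtain ⟨τ, _, hτ⟩ := h ⟨hT1, h0⟩
  exact ⟨τ, hτ⟩

/-! ### The mixing times -/

section mix

variable {c C : ℝ} (hc : 0 < c) (q : (n : ℕ) → Fin n → ℝ)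
  (hq : ∀ n, 2 ≤ n → (∀ i, c / n ≤ q n i ∧ q n i ≤ C / n) ∧ ∑ i, q n i = 1)

include hq in
lemma one_le_C : 1 ≤ C := by
  obtain ⟨h1, h2⟩ := hq 2 le_rfl
  have h3 := (h1 0).2
  have h4 := (h1 1).2
  rw [Fin.sum_univ_two] at h2
  push_cast at h3 h4
  linarith

include hc hq in
/-- the least time with `dist1 ≤ ε` is asymptotic to `τ` -/
lemma dist_time (τ : ℕ → ℝ) (hτ : ∀ n, 2 ≤ n → ∑ i, Real.exp (-(2 * q n i * τ n)) = 1)
    {ε : ℝ} (hε : 0 < ε) (hε1 : ε < 1) :
    Tendsto (fun n => ((sInf {t : ℕ | dist1 (q n) t ≤ ε} : ℕ) : ℝ) / τ n) atTop (𝓝 1) := by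
  have hC := one_le_C q hq
  have hC0 : 0 < C := by linarith
  rw [Metric.tendsto_atTop]
  intro r hr
  set δ := min (r / 2) 1 with hδd
  have hδ : 0 < δ := lt_min (by linarith) one_pos
  have hδ1 : δ ≤ 1 := min_le_right _ _
  have hδr : δ ≤ r / 2 := min_le_left _ _
  obtain ⟨N1, hN1⟩ := upper_asym (ε := 2 * ε) hc hC hδ hδ1 (by linarith)
  obtain ⟨N2, hN2⟩ := lower_asym (ε := (1 - ε) / 2) hc hC hδ (by linarith)
  -- `τ → ∞`
  have hbig : ∀ᶠ n : ℕ in atTop, 4 * (2 * C) / r ≤ Real.log n :=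
    tendsto_logN.eventually_ge_atTop _
  obtain ⟨N3, hN3⟩ := eventually_atTop.1 hbig
  refine ⟨max (max N1 N2) (max N3 2), fun n hn => ?_⟩
  have g1 : N1 ≤ n := ((le_max_left _ _).trans (le_max_left _ _)).trans hn
  have g2 : N2 ≤ n := ((le_max_right _ _).trans (le_max_left _ _)).trans hn
  have g3 : N3 ≤ n := ((le_max_left _ _).trans (le_max_right _ _)).trans hn
  have g4 : 2 ≤ n := ((le_max_right _ _).trans (le_max_right _ _)).trans hn
  obtain ⟨hb, hs⟩ := hq n g4
  have hτn := hτ n g4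
  have hn2 : (2 : ℝ) ≤ n := by exact_mod_cast g4
  have hN0 : (0 : ℝ) < n := by linarith
  have hp : ∀ i, 0 < q n i := fun i => lt_of_lt_of_le (div_pos hc hN0) (hb i).1
  have hcard : Fintype.card (Fin n) = n := Fintype.card_fin n
  have hlow : (n : ℝ) * Real.log n / (2 * C) ≤ τ n := by
    have := tau_lower (p := q n) (C := C) (τ := τ n) (by rw [hcard]; exact g4) hC0 hp
      (by rw [hcard]; exact fun i => (hb i).2) hτn
    rwa [hcard] at this
  have hlog := hN3 n g3
  have hlog0 : 0 < Real.log n := Real.log_pos (by linarith)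
  have hτ4 : 4 / r ≤ τ n := by
    refine le_trans ?_ hlow
    rw [div_le_div_iff₀ hr (by positivity)]
    rw [div_le_iff₀ hr] at hlog
    nlinarith
  have hτ0 : 0 < τ n := lt_of_lt_of_le (by positivity) hτ4
  have h1τ : 1 ≤ r / 4 * τ n := by
    rw [div_le_iff₀ hr] at hτ4
    linarith
  -- upper bound
  set t0 : ℕ := ⌈(1 + δ) * τ n⌉₊ with ht0
  have hpos : 0 ≤ (1 + δ) * τ n := by positivity
  have h5 : (1 + δ) * τ n ≤ t0 := Nat.le_ceil _
  have h6 : (t0 : ℝ) ≤ (1 + δ) * τ n + 1 := (Nat.ceil_lt_add_one hpos).le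
  have hmem : t0 ∈ {t : ℕ | dist1 (q n) t ≤ ε} := by
    have := dist_le (q n) t0 (M := 2 * ε) (fun φ hφ =>
      hN1 n g1 (q n) (τ n) t0 (fun i => (hb i).1) (fun i => (hb i).2) hs hτn h5 h6 φ hφ)
    change dist1 (q n) t0 ≤ ε
    linarith
  have hup : sInf {t : ℕ | dist1 (q n) t ≤ ε} ≤ t0 := Nat.sInf_le hmem
  have hup' : ((sInf {t : ℕ | dist1 (q n) t ≤ ε} : ℕ) : ℝ) ≤ t0 := by exact_mod_cast hup
  -- lower bound
  have hin : dist1 (q n) (sInf {t : ℕ | dist1 (q n) t ≤ ε}) ≤ ε := Nat.sInf_mem ⟨t0, hmem⟩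
  have hlo : (1 - δ) * τ n < ((sInf {t : ℕ | dist1 (q n) t ≤ ε} : ℕ) : ℝ) := by
    by_contra hcon
    push Not at hcon
    obtain ⟨K, hK⟩ := hN2 n g2 (q n) (τ n) (sInf {t : ℕ | dist1 (q n) t ≤ ε})
      (fun i => (hb i).1) (fun i => (hb i).2) hs hτn hcon
    have h7 := le_dist hs (sInf {t : ℕ | dist1 (q n) t ≤ ε}) (φ := tst K)
      (tst_nonneg K) (tst_le_one K)
    linarith
  rw [Real.dist_eq, abs_lt]
  constructor
  · rw [lt_sub_iff_add_lt, lt_div_iff₀ hτ0]
    have : (-r + 1) * τ n ≤ (1 - δ) * τ n := by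
      refine mul_le_mul_of_nonneg_right ?_ hτ0.le
      linarith
    linarith
  · rw [sub_lt_iff_lt_add, div_lt_iff₀ hτ0]
    have h8 : (1 + δ) * τ n ≤ (1 + r / 2) * τ n :=
      mul_le_mul_of_nonneg_right (by linarith) hτ0.le
    have h9 : 0 < r * τ n := mul_pos hr hτ0
    linarith

end mix

lemma cutoff_of_mixesAt {P : (n : ℕ) → Perm (Fin n) → Perm (Fin n) → ℝ} {τ : ℕ → ℝ}
    (h : MixesAt P τ) (hτ : ∀ᶠ n in atTop, τ n ≠ 0) : ExhibitsCutoff P := by
  intro ε hε hε1
  have h1 := (h ε hε hε1).div (h (1 - ε) (by linarith) (by linarith)) one_ne_zero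
  rw [div_one] at h1
  refine h1.congr' ?_
  filter_upwards [hτ] with n hn
  simp only [Pi.div_apply]
  rw [div_div_div_cancel_right₀ hn]

/-- **Cutoff for nearly uniform product weights.** -/
theorem result (c C : ℝ) (hc : 0 < c) (q : (n : ℕ) → Fin n → ℝ)
    (hq : ∀ n, 2 ≤ n → (∀ i, c / n ≤ q n i ∧ q n i ≤ C / n) ∧ ∑ i, q n i = 1) :
    ExhibitsCutoff (fun n => stepRight (fun i j => q n i * q n j)) ∧
    ExhibitsCutoff (fun n => stepLeft (fun i j => q n i * q n j)) ∧
    ∀ τ : ℕ → ℝ, (∀ n, 2 ≤ n → ∑ i, Real.exp (-(2 * q n i * τ n)) = 1) →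
      MixesAt (fun n => stepRight (fun i j => q n i * q n j)) τ ∧
      MixesAt (fun n => stepLeft (fun i j => q n i * q n j)) τ := by
  have main : ∀ τ : ℕ → ℝ, (∀ n, 2 ≤ n → ∑ i, Real.exp (-(2 * q n i * τ n)) = 1) →
      MixesAt (fun n => stepRight (fun i j => q n i * q n j)) τ ∧
      MixesAt (fun n => stepLeft (fun i j => q n i * q n j)) τ := by
    intro τ hτ
    constructor
    · intro ε hε hε1
      have h := dist_time hc q hq τ hτ hε hε1
      refine h.congr fun n => ?_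
      simp only [tmix, worst_right]
    · intro ε hε hε1
      have h := dist_time hc q hq τ hτ hε hε1
      refine h.congr fun n => ?_
      simp only [tmix, worst_left]
  have hex : ∀ n, ∃ τ : ℝ, 2 ≤ n → ∑ i, Real.exp (-(2 * q n i * τ)) = 1 := by
    intro n
    by_cases hn : 2 ≤ n
    · obtain ⟨τ, hτ⟩ := exists_tau (by omega) hc (fun i => ((hq n hn).1 i).1)
      exact ⟨τ, fun _ => hτ⟩
    · exact ⟨0, fun h => absurd h hn⟩
  choose τ hτ using hex
  have hne : ∀ᶠ n in atTop, τ n ≠ 0 := by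
    filter_upwards [eventually_ge_atTop 2] with n hn h0
    have h1 := hτ n hn
    rw [h0] at h1
    simp only [mul_zero, neg_zero, Real.exp_zero] at h1
    rw [Finset.sum_const, Finset.card_univ, Fintype.card_fin, nsmul_eq_mul, mul_one] at h1
    have h2 : (2 : ℝ) ≤ n := by exact_mod_cast hn
    linarith
  obtain ⟨hR, hL⟩ := main τ hτ
  exact ⟨cutoff_of_mixesAt hR hne, cutoff_of_mixesAt hL hne, main⟩

end Pool.Agent.Results.MP_8c2010_pr.ProductCutoff
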